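import Pool.Agent.Helper93.OWN.SQ4

set_option autoImplicit false

namespace Pool.Agent.Results.MP_51f845_lc.ExponentFive

open Pool.Agent.Helper93.OWN (DetOneCounter)

/-- Question Q1 of MP_51f845_lc, negative answer over every alphabet with at least two letters. For
every finite alphabet `A` with at least two letters there is a language `L` of nonempty words which is
context-free, and even accepted by a deterministic real-time one-counter automaton, such that
infinitely many words have no factor in `L`, although for every nonempty word `w` the fifth power
`w ^ 5` has a factor in `L`. -/
theorem result (A : Type) [Fintype A] [Nontrivial A] :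
    ∃ L : Language A, L.IsContextFree ∧ DetOneCounter L ∧ (∀ v ∈ L, v ≠ []) ∧
      {u : List A | ¬ ∃ v ∈ L, v <:+: u}.Infinite ∧
      ∀ w : List A, w ≠ [] → ∃ v ∈ L, v <:+: (List.replicate 5 w).flatten :=
  Pool.Agent.Helper93.OWN.exponentFive A

end Pool.Agent.Results.MP_51f845_lc.ExponentFive
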